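import Mathlib
import Pool.Agent.Results.MP_48b1c3_nt.FewExceptions
import Pool.Agent.Q22.DW.Gen

set_option autoImplicit false

/-! # Lenstra's density along the digits of real numbers

Let `1 / 2 < θ < 1`, `C₀ > 1`, `θ (1 - θ) < C₀ (2 θ - 1)`.  For almost every real number `α` and ALL data
`(F, C, W₀, k, D, r)` the groups `W = ⟨W₀, D m ^ r⟩` have Lenstra's density, at all `x` between
`g ^ (C₀ K)` and a quasi-exponential bound, for EVERY number `m` formed by `K` consecutive digits of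
`α` in base `g`, starting at any position up to `g ^ (κ K)` (`κ < 1 - θ`), if `K` is large.  The set of
all real numbers for which this fails with positions up to `η K` has Hausdorff dimension at most
`(θ + η) / (1 + η)`.  The same for the integer parts of `α l_K`. -/

namespace Pool.Agent.Results.MP_48b1c3_nt.DigitWindows

open NumberField MeasureTheory Filter Set

/-- the number of primes `q ≤ x` in the set of Q1 -/
noncomputable def S (F : IntermediateField ℚ (AlgebraicClosure ℚ)) [NumberField F]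
    (C : Set (F ≃ₐ[ℚ] F)) (W : Subgroup ℚˣ) (k x : ℕ) : ℕ :=
  Nat.card {q : ℕ // q ≤ x ∧ q.Prime ∧
    (∃ σ ∈ C, ∃ Q : Ideal (𝓞 F), Q.IsPrime ∧
        Q.comap (algebraMap ℤ (𝓞 F)) = Ideal.span {(q : ℤ)} ∧
        ∀ a b : 𝓞 F, (b : F) = σ (a : F) → b - a ^ q ∈ Q) ∧
    (∀ w ∈ W, padicValRat q (w : ℚ) = 0) ∧
    (Subgroup.closure {u : (ZMod q)ˣ | ∃ w ∈ W,
        (((w : ℚ).num : ℤ) : ZMod q) = (u : ZMod q) * (((w : ℚ).den : ℕ) : ZMod q)}).index ∣ k}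

open Classical in
/-- Lenstra's density -/
noncomputable def δ (F : IntermediateField ℚ (AlgebraicClosure ℚ)) [NumberField F]
    (C : Set (F ≃ₐ[ℚ] F)) (W : Subgroup ℚˣ) (k : ℕ) : ℝ :=
  ∑' n : ℕ, (ArithmeticFunction.moebius n : ℝ) *
    (Nat.card {σ : F ≃ₐ[ℚ] F // σ ∈ C ∧ ∀ y : F,
        (y : AlgebraicClosure ℚ) ∈ IntermediateField.adjoin ℚ
          {z : AlgebraicClosure ℚ | ∃ w ∈ W,
            z ^ (∏ l ∈ n.primeFactors, l ^ (k.factorization l + 1)) =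
              algebraMap ℚ (AlgebraicClosure ℚ) (w : ℚ)} → σ y = y} : ℝ) /
    (Module.finrank ℚ ↥(F ⊔ IntermediateField.adjoin ℚ
          {z : AlgebraicClosure ℚ | ∃ w ∈ W,
            z ^ (∏ l ∈ n.primeFactors, l ^ (k.factorization l + 1)) =
              algebraMap ℚ (AlgebraicClosure ℚ) (w : ℚ)}) : ℝ)

/-- the group `W = ⟨W₀, D m ^ r⟩` -/
def grp (W₀ : Subgroup ℚˣ) (D : ℚˣ) (r m : ℕ) : Subgroup ℚˣ :=
  W₀ ⊔ Subgroup.closure {w : ℚˣ | (w : ℚ) = (D : ℚ) * (m : ℚ) ^ r}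

/-- `m ≠ 0`, and the number of primes up to `x` in the set of Q1 for `W = ⟨W₀, D m ^ r⟩` is
`δ π(x)` up to an error `ε π(x)`, for all `x` with `N ^ C₀ ≤ x ≤ exp ((log N) ^ (1 + c))` -/
def Formula (C₀ c ε N : ℝ) (F : IntermediateField ℚ (AlgebraicClosure ℚ)) [NumberField F]
    (C : Set (F ≃ₐ[ℚ] F)) (W₀ : Subgroup ℚˣ) (k : ℕ) (D : ℚˣ) (r m : ℕ) : Prop :=
  m ≠ 0 ∧ ∀ x : ℕ, N ^ C₀ ≤ x → (x : ℝ) ≤ Real.exp ((Real.log N) ^ (1 + c)) →
    |(S F C (grp W₀ D r m) k x : ℝ) - δ F C (grp W₀ D r m) k * (Nat.primeCounting x : ℝ)| ≤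
      ε * (Nat.primeCounting x : ℝ)

/-- for ALL data `(F, C, W₀, k, D, r)` and all `ε > 0` the formula holds for all large `K` and all
`m ∈ M K` -/
def AllData (C₀ c : ℝ) (N : ℕ → ℝ) (M : ℕ → Set ℕ) : Prop :=
  ∀ (F : IntermediateField ℚ (AlgebraicClosure ℚ)) [NumberField F] [IsGalois ℚ F]
    (C : Set (F ≃ₐ[ℚ] F)) (W₀ : Subgroup ℚˣ) (k : ℕ) (D : ℚˣ) (r : ℕ),
    (∀ σ ∈ C, ∀ τ : F ≃ₐ[ℚ] F, τ * σ * τ⁻¹ ∈ C) → W₀.FG → 0 < k →
    0 < r → (∀ l : ℕ, l.Prime → l ∣ r → l ^ (k.factorization l + 1) ∣ r) →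
    ∀ ε : ℝ, 0 < ε → ∀ᶠ K : ℕ in atTop, ∀ m ∈ M K, Formula C₀ c ε (N K) F C W₀ k D r m

/-- the integer formed by the `k` digits number `j + 1, …, j + k` after the point of `α` in base `g` -/
noncomputable def window (g j k : ℕ) (α : ℝ) : ℕ := (⌊(g : ℝ) ^ (j + k) * α⌋ % (g : ℤ) ^ k).toNat

/-- the countable set of the data -/
def Idx : Type := Σ F : {F : IntermediateField ℚ (AlgebraicClosure ℚ) // NumberField F},
  Set (F.1 ≃ₐ[ℚ] F.1) × {W : Subgroup ℚˣ // W.FG} × ℕ × ℚˣ × ℕ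

lemma countable_units : Countable ℚˣ := Function.Injective.countable Units.val_injective

lemma countable_fg : Countable {W : Subgroup ℚˣ // W.FG} := by
  have := countable_units
  refine Function.Surjective.countable (f := fun s : Finset ℚˣ =>
    (⟨Subgroup.closure (s : Set ℚˣ), ⟨s, rfl⟩⟩ : {W : Subgroup ℚˣ // W.FG})) ?_
  rintro ⟨W, s, hs⟩
  exact ⟨s, Subtype.ext hs⟩

lemma countable_qa : Countable (AlgebraicClosure ℚ) := by
  rw [← Cardinal.mk_le_aleph0_iff]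
  have h := AlgebraicClosure.isAlgebraic ℚ
  refine (@Algebra.IsAlgebraic.cardinalMk_le_max ℚ _ _ (AlgebraicClosure ℚ) _ _ _ _ h).trans ?_
  rw [max_le_iff]
  exact ⟨Cardinal.mk_le_aleph0_iff.2 inferInstance, le_rfl⟩

lemma countable_fields :
    Countable {F : IntermediateField ℚ (AlgebraicClosure ℚ) // NumberField F} := by
  classical
  have := countable_qa
  have hs : (Set.range fun s : Finset (AlgebraicClosure ℚ) =>
      IntermediateField.adjoin ℚ (s : Set (AlgebraicClosure ℚ))).Countable := Set.countable_range _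
  refine (hs.mono ?_ : ({F : IntermediateField ℚ (AlgebraicClosure ℚ) | NumberField F}).Countable).to_subtype
  intro F hF
  have hF' : NumberField F := hF
  have hfd : FiniteDimensional ℚ F := inferInstance
  have h1 : F.FG := by
    have := IntermediateField.essFiniteType_iff (K := F) (F := ℚ) (E := AlgebraicClosure ℚ)
    exact this.1 inferInstance
  obtain ⟨s, hs⟩ := h1
  exact ⟨s, hs⟩

instance : Countable Idx := by
  have h1 := countable_fields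
  have h2 := countable_fg
  have h3 := countable_units
  unfold Idx
  have : ∀ F : {F : IntermediateField ℚ (AlgebraicClosure ℚ) // NumberField F},
      Countable (Set (F.1 ≃ₐ[ℚ] F.1) × {W : Subgroup ℚˣ // W.FG} × ℕ × ℚˣ × ℕ) := by
    intro F
    have := F.2
    infer_instance
  infer_instance

/-- the formula is violated at `x` -/
def V (i : Idx) (ε : ℝ) (m x : ℕ) : Prop :=
  haveI := i.1.2
  (IsGalois ℚ i.1.1 ∧ (∀ σ ∈ i.2.1, ∀ τ : i.1.1 ≃ₐ[ℚ] i.1.1, τ * σ * τ⁻¹ ∈ i.2.1) ∧ 0 < i.2.2.2.1 ∧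
    0 < i.2.2.2.2.2 ∧ (∀ l : ℕ, l.Prime → l ∣ i.2.2.2.2.2 → l ^ (i.2.2.2.1.factorization l + 1) ∣ i.2.2.2.2.2)) ∧
  ε * (Nat.primeCounting x : ℝ) <
    |(S i.1.1 i.2.1 (grp i.2.2.1.1 i.2.2.2.2.1 i.2.2.2.2.2 m) i.2.2.2.1 x : ℝ) -
      δ i.1.1 i.2.1 (grp i.2.2.1.1 i.2.2.2.2.1 i.2.2.2.2.2 m) i.2.2.2.1 * (Nat.primeCounting x : ℝ)|

open Pool.Agent.Q22.DW Pool.Agent.Q21.AW

lemma allData_of {C₀ c : ℝ} {N : ℕ → ℝ} {M : ℕ → Set ℕ}
    (h : ∀ i : Idx, ∀ ε : ℝ, 0 < ε → ∀ᶠ K : ℕ in atTop, ∀ m ∈ M K, Holds V C₀ c ε (N K) i m) :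
    AllData C₀ c N M := by
  intro F hF hG C W₀ k D r hC hW₀ hk hr hrk ε hε
  have h1 := h ⟨⟨F, hF⟩, C, ⟨W₀, hW₀⟩, k, D, r⟩ ε hε
  filter_upwards [h1] with K hK m hm
  obtain ⟨h2, h3⟩ := hK m hm
  refine ⟨h2, fun x hx1 hx2 => ?_⟩
  by_contra hcon
  rw [not_le] at hcon
  exact h3 x hx1 hx2 ⟨⟨hG, hC, hk, hr, hrk⟩, hcon⟩

open Classical in
theorem result (θ C₀ : ℝ) (hθ : 1 / 2 < θ) (hθ1 : θ < 1) (hC₀ : 1 < C₀)
    (hCθ : θ * (1 - θ) < C₀ * (2 * θ - 1)) :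
    ∃ c : ℝ, 0 < c ∧
      (∀ g : ℕ, 2 ≤ g → ∀ κ : ℝ, κ < 1 - θ → ∀ᵐ α : ℝ,
        AllData C₀ c (fun K => (g : ℝ) ^ K) (fun K => {m | ∃ j : ℕ, (j : ℝ) ≤ (g : ℝ) ^ (κ * K) ∧ m = window g j K α})) ∧
      (∀ g : ℕ, 2 ≤ g → ∀ η : ℝ, 0 ≤ η →
        dimH {α : ℝ | ¬ AllData C₀ c (fun K => (g : ℝ) ^ K)
          (fun K => {m | ∃ j : ℕ, (j : ℝ) ≤ η * K ∧ m = window g j K α})} ≤ ENNReal.ofReal ((θ + η) / (1 + η))) ∧
      (∀ s : ℝ, θ < s → ∀ l : ℕ → ℝ, (∀ K, 0 < l K) → Summable (fun K => l K ^ (θ - s)) →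
        μH[s] {α : ℝ | 0 < α ∧ ¬ AllData C₀ c l (fun K => {⌊α * l K⌋₊})} = 0) := by
  obtain ⟨θ₀, C₁, h1, h2, h3, h4, h5⟩ := params θ C₀ hθ hC₀ hCθ
  obtain ⟨c, hc, h⟩ := FewExceptions.result θ₀ C₁ h1 (by linarith) h3 h5
  have hgen := gen V (fun i ε ε' m x hε hv => ⟨hv.1, lt_of_le_of_lt
      (mul_le_mul_of_nonneg_right hε (Nat.cast_nonneg _)) hv.2⟩) θ₀ θ C₁ C₀ c (by linarith) h2 hθ1
      (by linarith) h4 hc ?_
  · obtain ⟨g1, g2, g3⟩ := hgen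
    refine ⟨c, hc, ?_, ?_, ?_⟩
    · intro g hg κ hκ
      filter_upwards [g1 g hg κ hκ] with α hα
      refine allData_of fun i ε hε => ?_
      filter_upwards [hα i ε hε] with K hK m hm
      obtain ⟨j, hj, rfl⟩ := hm
      exact hK j hj
    · intro g hg η hη
      refine (dimH_mono ?_).trans (g2 g hg η hη)
      intro α hα hcon
      refine hα (allData_of fun i ε hε => ?_)
      filter_upwards [hcon i ε hε] with K hK m hm
      obtain ⟨j, hj, rfl⟩ := hm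
      exact hK j hj
    · intro s hs l hl hsum
      refine measure_mono_null ?_ (g3 s hs l hl hsum)
      rintro α ⟨h0, hα⟩
      refine ⟨h0, fun hcon => hα (allData_of fun i ε hε => ?_)⟩
      filter_upwards [hcon i ε hε] with K hK m hm
      rw [Set.mem_singleton_iff] at hm
      rw [hm]
      exact hK
  · intro i ε hε
    by_cases hi : (haveI := i.1.2; (IsGalois ℚ i.1.1 ∧
        (∀ σ ∈ i.2.1, ∀ τ : i.1.1 ≃ₐ[ℚ] i.1.1, τ * σ * τ⁻¹ ∈ i.2.1) ∧ 0 < i.2.2.2.1 ∧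
        0 < i.2.2.2.2.2 ∧ (∀ l : ℕ, l.Prime → l ∣ i.2.2.2.2.2 →
          l ^ (i.2.2.2.1.factorization l + 1) ∣ i.2.2.2.2.2)))
    · obtain ⟨hG, hC, hk, hr, hrk⟩ := hi
      have := i.1.2
      have := hG
      obtain ⟨N₀, hN₀⟩ := h i.1.1 i.2.1 i.2.2.1.1 i.2.2.2.1 i.2.2.2.2.1 i.2.2.2.2.2 hC i.2.2.1.2 hk hr hrk ε hε
      refine ⟨N₀, fun N hN => le_trans ?_ (hN₀ N hN)⟩
      refine Nat.cast_le.2 (card_mono fun m hm h6 => ⟨hm, ?_⟩)
      obtain ⟨x, h7, h8⟩ := h6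
      exact ⟨x, h7, h8.2⟩
    · refine ⟨1, fun N hN => ?_⟩
      have e : ((Finset.Icc 1 N).filter (fun n : ℕ => ∃ x : ℕ, ((N : ℝ) ^ C₁ ≤ x ∧
          (x : ℝ) ≤ Real.exp ((Real.log N) ^ (1 + c))) ∧ V i ε n x)) = ∅ := by
        rw [Finset.filter_eq_empty_iff]
        rintro n _ ⟨x, _, h8⟩
        exact hi h8.1
      rw [e, Finset.card_empty, Nat.cast_zero]
      positivity

end Pool.Agent.Results.MP_48b1c3_nt.DigitWindows
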