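import Mathlib
import Pool.Agent.Q22.LF.Few

set_option autoImplicit false

/-! # Lenstra's density for the groups `⟨W₀, D m ^ r⟩`, `m` obtained by few changes of digits

Let `(F, C, W₀, k, D, r)` be arbitrary data (`F / ℚ` finite Galois, `C` conjugation-stable, `W₀ ≤ ℚˣ`
finitely generated, `k, r ≥ 1`, `D ∈ ℚˣ`, with `ℓ ^ (ν_ℓ(k) + 1) ∣ r` for all primes `ℓ ∣ r`; this is
no condition if `k = 1`, and it is satisfied for every `k` if `r = 1`), `W = ⟨W₀, D m ^ r⟩`.

There is a real number `A` with the following properties.  (i) Lenstra's density `δ(F, C, W, k)` is as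
close to `A` as we like for all `m` which have a prime factor larger than a suitable bound exactly
once.  (ii) Take an ARBITRARY number `N` with at most `K` digits in base `b`, prescribe for every
position a digit different from that of `N`, and choose `ρ ≤ K / 2` of the `K` positions.  For all but
a proportion `1 / y ^ a` of the choices, the number `m` obtained by changing the digits of `N` at
the chosen positions is zero or satisfies `|S(x) - A π(x)| ≤ ε π(x)` for ALL `x` with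
`y ≤ x ≤ exp (c ρ)`, where `S(x)` is the number of primes `q ≤ x` in the set of Q1 for `W`.  The
constant `c` only depends on `b` and `a`, and `y` is any number beyond a bound `y₀` which does not
depend on `N`, `K`, `ρ`. -/

namespace Pool.Agent.Results.MP_48b1c3_nt.FewDigitChanges

open NumberField Finset

/-- the number of primes `q ≤ x` in the set of Q1 -/
noncomputable def S (F : IntermediateField ℚ (AlgebraicClosure ℚ)) [NumberField F]
    (C : Set (F ≃ₐ[ℚ] F)) (W : Subgroup ℚˣ) (k x : ℕ) : ℕ :=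
  Nat.card {q : ℕ // q ≤ x ∧ q.Prime ∧
    (∃ σ ∈ C, ∃ Q : Ideal (𝓞 F), Q.IsPrime ∧
        Q.comap (algebraMap ℤ (𝓞 F)) = Ideal.span {(q : ℤ)} ∧
        ∀ a b : 𝓞 F, (b : F) = σ (a : F) → b - a ^ q ∈ Q) ∧
    (∀ w ∈ W, padicValRat q (w : ℚ) = 0) ∧
    (Subgroup.closure {u : (ZMod q)ˣ | ∃ w ∈ W,
        (((w : ℚ).num : ℤ) : ZMod q) = (u : ZMod q) * (((w : ℚ).den : ℕ) : ZMod q)}).index ∣ k}

open Classical in
/-- Lenstra's density -/
noncomputable def δ (F : IntermediateField ℚ (AlgebraicClosure ℚ)) [NumberField F]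
    (C : Set (F ≃ₐ[ℚ] F)) (W : Subgroup ℚˣ) (k : ℕ) : ℝ :=
  ∑' n : ℕ, (ArithmeticFunction.moebius n : ℝ) *
    (Nat.card {σ : F ≃ₐ[ℚ] F // σ ∈ C ∧ ∀ y : F,
        (y : AlgebraicClosure ℚ) ∈ IntermediateField.adjoin ℚ
          {z : AlgebraicClosure ℚ | ∃ w ∈ W,
            z ^ (∏ l ∈ n.primeFactors, l ^ (k.factorization l + 1)) =
              algebraMap ℚ (AlgebraicClosure ℚ) (w : ℚ)} → σ y = y} : ℝ) /
    (Module.finrank ℚ ↥(F ⊔ IntermediateField.adjoin ℚ
          {z : AlgebraicClosure ℚ | ∃ w ∈ W,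
            z ^ (∏ l ∈ n.primeFactors, l ^ (k.factorization l + 1)) =
              algebraMap ℚ (AlgebraicClosure ℚ) (w : ℚ)}) : ℝ)

/-- the group `W = ⟨W₀, D m ^ r⟩` -/
def grp (W₀ : Subgroup ℚˣ) (D : ℚˣ) (r m : ℕ) : Subgroup ℚˣ :=
  W₀ ⊔ Subgroup.closure {w : ℚˣ | (w : ℚ) = (D : ℚ) * (m : ℚ) ^ r}

/-- the digit number `i` (counted from the right, beginning with `0`) of `n` in base `b` -/
def digit (b i n : ℕ) : ℕ := n / b ^ i % b

/-- the number which arises from the number `N` with at most `K` digits in base `b`, if for every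
`i ∈ T` the digit number `i` is replaced by `f i` -/
def change (b K N : ℕ) (f : ℕ → ℕ) (T : Finset ℕ) : ℕ :=
  ∑ i ∈ range K, (if i ∈ T then f i else digit b i N) * b ^ i

open Classical in
/-- the number of the choices of `ρ` of `K` positions for which the number obtained by changing the
digits of `N` at the chosen positions (according to `f`) does not have the property `E` -/
noncomputable def exceptions (b K ρ N : ℕ) (f : ℕ → ℕ) (E : ℕ → Prop) : ℕ :=
  ((powersetCard ρ (range K)).filter (fun T => ¬ E (change b K N f T))).card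

theorem result (b : ℕ) (hb : 2 ≤ b) (a : ℕ) : ∃ c : ℝ, 0 < c ∧
    ∀ (F : IntermediateField ℚ (AlgebraicClosure ℚ)) [NumberField F] [IsGalois ℚ F]
      (C : Set (F ≃ₐ[ℚ] F)) (W₀ : Subgroup ℚˣ) (k : ℕ) (D : ℚˣ) (r : ℕ),
      (∀ σ ∈ C, ∀ τ : F ≃ₐ[ℚ] F, τ * σ * τ⁻¹ ∈ C) → W₀.FG → 0 < k →
      0 < r → (∀ l : ℕ, l.Prime → l ∣ r → l ^ (k.factorization l + 1) ∣ r) →
      ∃ A : ℝ,
        (∀ ε : ℝ, 0 < ε → ∃ P₀ : ℕ, ∀ m : ℕ, m ≠ 0 →
          (∃ p : ℕ, p.Prime ∧ P₀ < p ∧ p ∣ m ∧ ¬ p ^ 2 ∣ m) →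
            |δ F C (grp W₀ D r m) k - A| ≤ ε) ∧
        (∀ ε : ℝ, 0 < ε → ∃ y₀ : ℕ, ∀ ρ K y : ℕ, 2 * ρ ≤ K → y₀ ≤ y →
          ∀ N : ℕ, N < b ^ K → ∀ f : ℕ → ℕ, (∀ j, f j < b ∧ f j ≠ digit b j N) →
            (exceptions b K ρ N f (fun m => m ≠ 0 → ∀ x : ℕ, y ≤ x → (x : ℝ) ≤ Real.exp (c * ρ) →
              |(S F C (grp W₀ D r m) k x : ℝ) - A * (Nat.primeCounting x : ℝ)| ≤
                ε * (Nat.primeCounting x : ℝ)) : ℝ) ≤
              1 / (y : ℝ) ^ a * (K.choose ρ : ℝ)) := by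
  classical
  obtain ⟨c, hc, h⟩ := Pool.Agent.Q22.LF.few_len b hb a
  refine ⟨c, hc, ?_⟩
  intro F _ _ C W₀ k D r hC hW₀ hk hr hrk
  obtain ⟨A, h1, h2⟩ := h F C W₀ k D r hC hW₀ hk hr hrk
  refine ⟨A, fun ε hε => ?_, fun ε hε => ?_⟩
  · obtain ⟨P₀, hP₀⟩ := h1 ε hε
    refine ⟨P₀, fun m hm hg => ?_⟩
    have h3 := hP₀ m hm hg
    unfold grp
    rw [Pool.Agent.W171.LG.gp_eqR W₀ D r hm]
    exact h3
  · obtain ⟨y₀, hy₀⟩ := h2 ε hε
    refine ⟨y₀ + 1, fun ρ K y hρK hy N hN f hf => ?_⟩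
    have h3 := hy₀ ρ K y hρK (by omega) N hN f hf
      ((powersetCard ρ (range K)).filter (fun T => ¬ (change b K N f T ≠ 0 → ∀ x : ℕ, y ≤ x →
        (x : ℝ) ≤ Real.exp (c * ρ) →
        |(S F C (grp W₀ D r (change b K N f T)) k x : ℝ) - A * (Nat.primeCounting x : ℝ)| ≤
          ε * (Nat.primeCounting x : ℝ)))) (filter_subset _ _) ?_
    · rw [Real.rpow_neg (Nat.cast_nonneg _), Real.rpow_natCast] at h3
      rw [one_div]
      unfold exceptions
      refine le_trans (le_of_eq ?_) h3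
      congr!
    · intro T hT
      rw [mem_filter] at hT
      obtain ⟨_, hT2⟩ := hT
      push Not at hT2
      obtain ⟨hm, x, hyx, hxr, hbad⟩ := hT2
      have hx0 : (0 : ℝ) < x := by
        have : 1 ≤ x := by omega
        exact_mod_cast this
      refine ⟨hm, x, hyx, (Real.log_le_iff_le_exp hx0).2 hxr, ?_⟩
      unfold grp at hbad
      rw [Pool.Agent.W171.LG.gp_eqR W₀ D r hm] at hbad
      exact hbad

end Pool.Agent.Results.MP_48b1c3_nt.FewDigitChanges
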