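import Pool.Agent.Q56.WL.Fam

/-!
# The index of the group generated by `s` integers modulo the primes of an arbitrary set, for ALL `s`-tuples of integers in
windows near powers with non-integral exponents

Let `W = ⟨n 0, ..., n (s - 1)⟩`, where the generators are arbitrary integers in the windows of length `y ^ V` around the real numbers
`β l + ω l * i (μ l) ^ ex l`, where `i = (i_1, ..., i_m)` runs through `{1, ..., x} ^ m`, the exponents `ex l > 1` are not integers, and
two generators which depend on the same index have different exponents (for instance `s = m = 1`: all integers close to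
`i ^ (3/2)`; or `m = 1`: the groups generated by integers close to `i ^ (3/2)` and `i ^ (5/2)`). For almost all index vectors and ALL
integers in the windows the index of the group generated by the classes of the generators modulo the primes of an arbitrary set
(for instance those with a prescribed Frobenius class) behaves as for random generators, with square-root error.

The proof uses the moments of sums of functions of the residues of such tuples (`Q56.WL`: products of Fejér kernels, and van der
Corput's method for the exponential sums over the real points).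
-/

set_option autoImplicit false

namespace Pool.Agent.Results.MP_48b1c3_nt.NearPowers

open Finset Pool.Agent.Q56.WL

open Classical in
/-- The index `[(ℤ / qℤ)ˣ : ⟨n 0, ..., n (s - 1)⟩]` of the group generated by the classes of the `n i`, and `0` if one of the
`n i` is not coprime to `q`. -/
noncomputable def index {s : ℕ} (q : ℕ) (n : Fin s → ℕ) : ℕ :=
  if ∀ i, Nat.Coprime (n i) q then (Subgroup.closure {u : (ZMod q)ˣ | ∃ i, (u : ZMod q) = ((n i : ℕ) : ZMod q)}).index else 0

/-- The average over all the `s`-tuples of residues modulo `q` of the function `F`. -/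
noncomputable def average {s : ℕ} (q : ℕ) (F : (Fin s → ℕ) → ℝ) : ℝ :=
  (∑ n ∈ Fintype.piFinset (fun _ : Fin s => range q), F n) / (q : ℝ) ^ s

/-- For every `z` at most `z ^ B` pairs `(P, φ)`, where `P` is a set of primes up to `z`, and `φ` is a real function of absolute
value at most `1` of a prime and an index. -/
structure Tests (B : ℕ) where
  /-- the pairs -/
  T : ℕ → Finset (Finset ℕ × (ℕ → ℕ → ℝ))
  card : ∀ z, (T z).card ≤ z ^ B
  prime : ∀ z, ∀ t ∈ T z, ∀ q ∈ t.1, q.Prime ∧ q ≤ z
  bound : ∀ z, ∀ t ∈ T z, ∀ q v, |t.2 q v| ≤ 1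

open Classical in
/-- For all pairs `(P, φ)` in the family the sum over the primes `q ∈ P` of `φ q` at the index of the group generated by the `n i`
modulo `q` differs from the sum of the averages over all `s`-tuples of residues modulo `q` by at most `(max 1 V) ^ (1 / 2) z ^ δ`, where
`V` is the sum of the averages of the squares; and for all `1 ≤ k ≤ z ^ B` the number of the primes `q ∈ P` for which this index
divides `k` (and all `n i` are coprime to `q`) differs from its expected value `V`, the sum over the primes `q ∈ P` of the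
proportion of the `s`-tuples of residues modulo `q` with this property, by at most `(max 1 V) ^ (1 / 2) z ^ δ`. -/
def Good {s B : ℕ} (δ : ℝ) (θ : Tests B) (z : ℕ) (n : Fin s → ℕ) : Prop :=
  ∀ t ∈ θ.T z,
    |∑ q ∈ t.1, t.2 q (index q n) - ∑ q ∈ t.1, average q (fun u : Fin s → ℕ => t.2 q (index q u))| ≤
      Real.sqrt (max 1 (∑ q ∈ t.1, average q (fun u : Fin s → ℕ => t.2 q (index q u) ^ 2))) * (z : ℝ) ^ δ ∧
    ∀ k : ℕ, 1 ≤ k → k ≤ z ^ B →
      |(((t.1.filter (fun q => index q n ∣ k)).card : ℝ)) -
          ∑ q ∈ t.1, average q (fun u : Fin s → ℕ => if index q u ∣ k then 1 else 0)| ≤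
        Real.sqrt (max 1 (∑ q ∈ t.1, average q (fun u : Fin s → ℕ => if index q u ∣ k then 1 else 0))) * (z : ℝ) ^ δ

lemma index_mod {s : ℕ} (q : ℕ) (m : Fin s → ℕ) : index q m = index q (fun i => m i % q) := by
  classical
  unfold index
  have h1 : (∀ i, Nat.Coprime (m i) q) ↔ ∀ i, Nat.Coprime (m i % q) q := by
    apply forall_congr'
    intro i
    unfold Nat.Coprime
    rw [← Nat.gcd_rec, Nat.gcd_comm]
  have h2 : {u : (ZMod q)ˣ | ∃ i, (u : ZMod q) = ((m i : ℕ) : ZMod q)} = {u : (ZMod q)ˣ | ∃ i, (u : ZMod q) = ((m i % q : ℕ) : ZMod q)} := by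
    ext u
    simp only [Set.mem_ofPred_eq, ZMod.natCast_mod]
  by_cases h : ∀ i, Nat.Coprime (m i) q
  · rw [if_pos h, if_pos (h1.1 h), h2]
  · rw [if_neg h, if_neg (fun h' => h (h1.2 h'))]

open Classical in
/-- the pairs with the indicator functions of the multiples -/
noncomputable def pairs {B : ℕ} (θ : Tests B) (z : ℕ) : Finset (Finset ℕ × (ℕ → ℕ → ℝ)) :=
  if z < 2 then ∅ else
    θ.T z ∪ ((θ.T z) ×ˢ (Icc 1 (z ^ B))).image (fun tk => (tk.1.1, fun (_ v : ℕ) => if v ∣ tk.2 then (1 : ℝ) else 0))

lemma pairs_card {B : ℕ} (θ : Tests B) (z : ℕ) (hz : 2 ≤ z) : (pairs θ z).card ≤ z ^ (2 * B + 1) := by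
  classical
  unfold pairs
  rw [if_neg (by omega)]
  have h1 := θ.card z
  have h2 : (((θ.T z) ×ˢ (Icc 1 (z ^ B))).image (fun tk : (Finset ℕ × (ℕ → ℕ → ℝ)) × ℕ =>
      (tk.1.1, fun (_ v : ℕ) => if v ∣ tk.2 then (1 : ℝ) else 0))).card ≤ z ^ B * z ^ B := by
    refine card_image_le.trans ?_
    rw [card_product, Nat.card_Icc, Nat.add_sub_cancel]
    exact Nat.mul_le_mul_right _ h1
  refine (card_union_le _ _).trans ((add_le_add h1 h2).trans ?_)
  have h3 : z ^ (2 * B + 1) = z ^ B * z ^ B * z := by ring
  rw [h3]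
  have h4 : 1 ≤ z ^ B := Nat.one_le_pow _ _ (by omega)
  nlinarith [Nat.mul_le_mul_left (z ^ B * z ^ B) hz, Nat.mul_le_mul_left (z ^ B) h4]

open Classical in
/-- the data -/
noncomputable def data {B : ℕ} (s : ℕ) (θ : Tests B) : Pool.Agent.Q235.FD.Data (Fin s) (2 * B + 1) where
  κ := Finset ℕ × (ℕ → ℕ → ℝ)
  Λ := pairs θ
  card := pairs_card θ
  P := fun x l => l.1.filter (fun q => q.Prime ∧ q ≤ x)
  prime := by
    intro x l p hp
    exact (mem_filter.1 hp).2
  G := fun _ l p n => if |l.2 p (index p n)| ≤ 1 then l.2 p (index p n) else 0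
  per := by
    intro x l p n _
    rw [← index_mod]
  bound := by
    intro x l p n _
    split_ifs with h
    · exact h
    · simp

/-- Let the exponents `ex`, the coefficients `ω` and the map `μ` from the `s` generators to the `m` indices be as in `Setting`. For
all `δ > 0`, `A`, `V` and `B` the property `Good δ θ z n` holds for almost all index vectors and ALL `s`-tuples `n` in the windows of
length `y ^ V` (`ForAlmostAll`), uniformly in the shifts and in the family `θ` of at most `z ^ B` pairs. -/
theorem result (s : ℕ) (_hs : 1 ≤ s) (m : ℕ) (ex ω : Fin s → ℝ) (μ : Fin s → Fin m) (hset : Setting ex ω μ)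
    (δ : ℝ) (hδ : 0 < δ) (A V B : ℕ) : ForAlmostAll ex ω μ A V (Good (s := s) (B := B) δ) := by
  classical
  refine forAlmostAll_of hset hδ A V (fun θ : Tests B => data s θ) 2 ?_
  intro θ z n hz h
  have hav : ∀ (p : ℕ) (F : (Fin s → ℕ) → ℝ), Pool.Agent.Q235.FD.avg p F = average p F := by
    intro p F
    unfold average Pool.Agent.Q235.FD.avg
    rw [Fintype.card_fin]
    refine congrArg (· / (p : ℝ) ^ s) (sum_congr ?_ fun _ _ => rfl)
    ext n
    simp only [Fintype.mem_piFinset]
  have key : ∀ P : Finset ℕ, ∀ φ : ℕ → ℕ → ℝ, (∀ q ∈ P, q.Prime ∧ q ≤ z) → (∀ q v, |φ q v| ≤ 1) → (P, φ) ∈ pairs θ z →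
      |∑ q ∈ P, φ q (index q n) - ∑ q ∈ P, average q (fun u : Fin s → ℕ => φ q (index q u))| ≤
      Real.sqrt (max 1 (∑ q ∈ P, average q (fun u : Fin s → ℕ => φ q (index q u) ^ 2))) * (z : ℝ) ^ δ := by
    intro P φ hP hφ hmem
    have h1 := h (P, φ) hmem
    have h2 : (data s θ).P z (P, φ) = P := by
      show P.filter (fun q => q.Prime ∧ q ≤ z) = P
      exact filter_true_of_mem hP
    have h3 : ∀ p n, (data s θ).G z (P, φ) p n = φ p (index p n) := by
      intro p n
      show (if |φ p (index p n)| ≤ 1 then φ p (index p n) else 0) = _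
      rw [if_pos (hφ _ _)]
    rw [h2] at h1
    have h4 : ∀ p, (data s θ).G z (P, φ) p = fun n => φ p (index p n) := fun p => funext fun n => h3 p n
    simp only [h4, hav] at h1
    exact h1
  intro t ht
  have hmem : ∀ k, 1 ≤ k → k ≤ z ^ B → (t.1, fun (_ v : ℕ) => if v ∣ k then (1 : ℝ) else 0) ∈ pairs θ z := by
    intro k hk1 hk2
    unfold pairs
    rw [if_neg (by omega), mem_union, mem_image]
    exact Or.inr ⟨(t, k), mem_product.2 ⟨ht, mem_Icc.2 ⟨hk1, hk2⟩⟩, rfl⟩
  refine ⟨key t.1 t.2 (θ.prime z t ht) (θ.bound z t ht) ?_, fun k hk1 hk2 => ?_⟩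
  · unfold pairs
    rw [if_neg (by omega), mem_union]
    exact Or.inl ht
  · have h5 := key t.1 (fun (_ v : ℕ) => if v ∣ k then (1 : ℝ) else 0) (θ.prime z t ht) (by
      intro q v
      split_ifs <;> norm_num) (hmem k hk1 hk2)
    have e1 : ((((t.1).filter (fun q => index q n ∣ k)).card : ℕ) : ℝ) = ∑ a ∈ t.1, (if index a n ∣ k then (1 : ℝ) else 0) := by
      rw [card_filter]
      push_cast
      rfl
    have e2 : ∀ a, (fun n : Fin s → ℕ => (if index a n ∣ k then (1 : ℝ) else 0) ^ 2) = fun n => if index a n ∣ k then (1 : ℝ) else 0 := by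
      intro a
      funext n
      split_ifs <;> norm_num
    simp only [e2] at h5
    rw [e1]
    exact h5

end Pool.Agent.Results.MP_48b1c3_nt.NearPowers
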