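import Pool.Agent.TH893.JO.Len
import Pool.Agent.Q241.LN.Grid

/-!
# Lenstra's condition for many data at once, and for all progressions, intervals and indices at once

Let `𝒮(F, C, W, k)` be Lenstra's set of primes and `W = ⟨W₀, D n ^ r⟩`. The number of the primes of a set
`S` which belong to it is compared with the sum over `S` of explicit local densities.

1. For almost all `n ≤ N` this is true with a power saving for ALL members
`(S, F, C, W₀, k, D, r)` of an arbitrary family of at most `X ^ τ` data, with sets `S` of at least `X ^ σ`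
primes up to `X`. Here `X ^ (2 / κ) ≤ N ≤ X ^ C₀` and `τ < σ / κ`.

2. For almost all `n ≤ N` this is true for ALL `k ≤ X ^ ρ` and the primes of ALL intervals `(u, v]`,
`v ≤ X`, in ALL arithmetic progressions `a mod d`, with the error `X ^ (-c) ((v - u) / d + X ^ σ)`, if
`κ (2 (1 - σ) + ρ) < σ`. For `κ = 1` (`N ≥ X ^ 2`) and `ρ` near `0` these are the intervals of length
`X ^ (2 / 3 + ε)` and the progressions to all moduli up to `X ^ (1 / 3 - ε)`.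

The number of the exceptions `n` is at most `N X ^ (-c)`.

The theorem for one datum is `Pool.Agent.TH893.JO.len_sets`.
-/

set_option autoImplicit false

namespace Pool.Agent.Results.MP_48b1c3_nt.SimultaneousData

open Finset NumberField

/-- the Frobenius conjugacy class of `q` in `G(F/ℚ)` meets `C` -/
def FrobIn (F : IntermediateField ℚ (AlgebraicClosure ℚ)) [NumberField F]
    (C : Set (F ≃ₐ[ℚ] F)) (q : ℕ) : Prop :=
  ∃ σ ∈ C, ∃ Q : Ideal (𝓞 F), Q.IsPrime ∧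
    Q.comap (algebraMap ℤ (𝓞 F)) = Ideal.span {(q : ℤ)} ∧
    ∀ a b : 𝓞 F, (b : F) = σ (a : F) → b - a ^ q ∈ Q

/-- `q` is in the set `𝒮(F, C, W, k)` of Q1: the Frobenius condition, `W` consists of `q`-units, and the
index of `W` modulo `q` divides `k` -/
def InS (F : IntermediateField ℚ (AlgebraicClosure ℚ)) [NumberField F]
    (C : Set (F ≃ₐ[ℚ] F)) (W : Subgroup ℚˣ) (k q : ℕ) : Prop :=
  FrobIn F C q ∧ (∀ w ∈ W, padicValRat q (w : ℚ) = 0) ∧
    (Subgroup.closure {u : (ZMod q)ˣ | ∃ w ∈ W,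
      (((w : ℚ).num : ℤ) : ZMod q) = (u : ZMod q) * (((w : ℚ).den : ℕ) : ZMod q)}).index ∣ k

/-- the reduction of `w` modulo `q` is a `d`-th power -/
def IsPow (q d : ℕ) (w : ℚˣ) : Prop :=
  ∃ y : ZMod q, (((w : ℚ).num : ℤ) : ZMod q) = y ^ d * (((w : ℚ).den : ℕ) : ZMod q)

open Classical in
/-- the local factor at the prime `l`; here `Q = l ^ (ν_l(k) + 1)`. It is `1` unless `Q ∣ q - 1` and all
elements of `W₀` are `Q`-th powers modulo `q`; in this case it is `1 - g/Q` with `g = gcd(r, Q)` if `D`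
is a `g`-th power modulo `q`, and `1` otherwise -/
noncomputable def factor (W₀ : Subgroup ℚˣ) (k : ℕ) (D : ℚˣ) (r q l : ℕ) : ℝ :=
  if l ^ (k.factorization l + 1) ∣ q - 1 ∧ ∀ w ∈ W₀, IsPow q (l ^ (k.factorization l + 1)) w then
    1 - (if IsPow q (Nat.gcd r (l ^ (k.factorization l + 1))) D then
      (Nat.gcd r (l ^ (k.factorization l + 1)) : ℝ) / (l ^ (k.factorization l + 1) : ℕ) else 0)
  else 1

open Classical in
/-- the local density at `q`: the product of the local factors over the primes `l ∣ q - 1` if the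
Frobenius class of `q` meets `C` and `W₀` consists of `q`-units, `0` otherwise -/
noncomputable def loc (F : IntermediateField ℚ (AlgebraicClosure ℚ)) [NumberField F]
    (C : Set (F ≃ₐ[ℚ] F)) (W₀ : Subgroup ℚˣ) (k : ℕ) (D : ℚˣ) (r q : ℕ) : ℝ :=
  if FrobIn F C q ∧ ∀ w ∈ W₀, padicValRat q (w : ℚ) = 0 then
    ∏ l ∈ (q - 1).primeFactors, factor W₀ k D r q l else 0

open Classical in
/-- the difference between the number of the `q ∈ S` in `𝒮(F, C, ⟨W₀, D n ^ r⟩, k)` and the sum of the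
local densities, in absolute value -/
noncomputable def error (F : IntermediateField ℚ (AlgebraicClosure ℚ)) [NumberField F]
    (C : Set (F ≃ₐ[ℚ] F)) (W₀ : Subgroup ℚˣ) (k : ℕ) (D : ℚˣ) (r n : ℕ) (S : Finset ℕ) : ℝ :=
  |(#(S.filter (fun q => InS F C
        (W₀ ⊔ Subgroup.closure {w : ℚˣ | (w : ℚ) = (D : ℚ) * (n : ℚ) ^ r}) k q)) : ℝ) -
      ∑ q ∈ S, loc F C W₀ k D r q|

open Classical in
/-- the primes `q ≡ a mod d` with `u < q ≤ v` at which `D` is a unit -/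
noncomputable def primesIn (D : ℚˣ) (d a u v : ℕ) : Finset ℕ :=
  (Ioc u v).filter (fun q => (q.Prime ∧ padicValRat q (D : ℚ) = 0) ∧ q ≡ a [MOD d])

open Classical in
/-- the `n` from `1` to `N` for which the error is large for some datum of the family -/
noncomputable def badData {J : Type} (F : J → IntermediateField ℚ (AlgebraicClosure ℚ))
    [∀ j, NumberField (F j)] (C : ∀ j, Set (F j ≃ₐ[ℚ] F j)) (W₀ : J → Subgroup ℚˣ) (k r : J → ℕ)
    (D : J → ℚˣ) (S : J → Finset ℕ) (N : ℕ) (δ : ℝ) : Finset ℕ :=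
  (Icc 1 N).filter (fun n : ℕ => ∃ j, #(S j) * δ < error (F j) (C j) (W₀ j) (k j) (D j) (r j) n (S j))

open Classical in
lemma mem_badData {J : Type} {F : J → IntermediateField ℚ (AlgebraicClosure ℚ)}
    [∀ j, NumberField (F j)] {C : ∀ j, Set (F j ≃ₐ[ℚ] F j)} {W₀ : J → Subgroup ℚˣ} {k r : J → ℕ}
    {D : J → ℚˣ} {S : J → Finset ℕ} {N : ℕ} {δ : ℝ} {n : ℕ} :
    n ∈ badData F C W₀ k r D S N δ ↔ n ∈ Icc 1 N ∧
      ∃ j, #(S j) * δ < error (F j) (C j) (W₀ j) (k j) (D j) (r j) n (S j) := by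
  unfold badData
  exact mem_filter

open Classical in
/-- the `n` from `1` to `N` for which the error is large for some index up to `K`, some progression and
some interval -/
noncomputable def badProgression (F : IntermediateField ℚ (AlgebraicClosure ℚ)) [NumberField F]
    (C : Set (F ≃ₐ[ℚ] F)) (W₀ : Subgroup ℚˣ) (D : ℚˣ) (r N X : ℕ) (K σ δ : ℝ) : Finset ℕ :=
  (Icc 1 N).filter (fun n : ℕ => ∃ k d a u v : ℕ, 1 ≤ k ∧ (k : ℝ) ≤ K ∧ 1 ≤ d ∧ u ≤ v ∧ v ≤ X ∧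
    δ * (((v : ℝ) - u) / d + (X : ℝ) ^ σ) < error F C W₀ k D r n (primesIn D d a u v))

open Pool.Agent.W171.LG (rd Un rd_ne un_iff unW_iff UnW PW GF) in
lemma isPow_iff {q : ℕ} [Fact q.Prime] {w : ℚˣ} (h : Un q (w : ℚ)) (d : ℕ) :
    IsPow q d w ↔ ∃ y : ZMod q, y ^ d = rd q (w : ℚ) := by
  unfold IsPow rd
  refine exists_congr fun y => ?_
  rw [eq_mul_inv_iff_mul_eq₀ h.2]
  exact eq_comm

open Pool.Agent.W171.LG (rd Un rd_ne un_iff unW_iff UnW PW GF QR) in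
open Pool.Agent.H981R3.LN (ql Sk) in
open Pool.Agent.TH893.JO in
lemma loc_eq (F : IntermediateField ℚ (AlgebraicClosure ℚ)) [NumberField F] [IsGalois ℚ F]
    (C : Set (F ≃ₐ[ℚ] F)) (W₀ : Subgroup ℚˣ) (k : ℕ) (D : ℚˣ) (r : ℕ) {q : ℕ} (hq : q.Prime)
    (hD : padicValRat q (D : ℚ) = 0) :
    loc F C W₀ k D r q = Pool.Agent.TH890.AS.dens q (QR F C W₀ k D r q) := by
  classical
  have : Fact q.Prime := ⟨hq⟩
  have hUD : Un q (D : ℚ) := (un_iff D.ne_zero).2 hD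
  rw [dens_QR]
  unfold loc
  by_cases hW : UnW W₀ q
  · have hW' : ∀ w ∈ W₀, padicValRat q (w : ℚ) = 0 := (unW_iff W₀).1 hW
    by_cases hG : FrobIn F C q
    · have hG' : GF F C q := hG
      rw [if_pos ⟨hG, hW'⟩, if_pos ⟨hG', hW, hUD⟩]
      unfold LL Sk
      rw [filter_filter, prod_filter]
      refine prod_congr rfl fun l hl => ?_
      unfold factor
      have e1 : (ql k l ∣ q - 1 ∧ PW W₀ (ql k l) q) ↔ (l ^ (k.factorization l + 1) ∣ q - 1 ∧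
          ∀ w ∈ W₀, IsPow q (l ^ (k.factorization l + 1)) w) := by
        change (ql k l ∣ q - 1 ∧ PW W₀ (ql k l) q) ↔ (ql k l ∣ q - 1 ∧ ∀ w ∈ W₀, IsPow q (ql k l) w)
        refine and_congr_right fun hd => ?_
        unfold PW
        constructor
        · rintro ⟨-, h⟩ w hw
          rw [isPow_iff (hW w hw), ← zpow_iff (rd_ne (hW w hw)) hd]
          exact h w hw
        · intro h
          refine ⟨hd, fun w hw => ?_⟩
          rw [zpow_iff (rd_ne (hW w hw)) hd, ← isPow_iff (hW w hw)]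
          exact h w hw
      by_cases hc : ql k l ∣ q - 1 ∧ PW W₀ (ql k l) q
      · rw [if_pos hc, if_pos (e1.1 hc)]
        congr 1
        unfold PD
        have e2 : IsPow q (Nat.gcd r (l ^ (k.factorization l + 1))) D ↔
            ∃ y : ZMod q, y ^ Nat.gcd r (ql k l) = rd q (D : ℚ) := isPow_iff hUD _
        by_cases hP : IsPow q (Nat.gcd r (l ^ (k.factorization l + 1))) D
        · rw [if_pos hP, if_pos (e2.1 hP)]
          rfl
        · rw [if_neg hP, if_neg (fun h => hP (e2.2 h))]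
      · rw [if_neg hc, if_neg (fun h => hc (e1.2 h))]
    · rw [if_neg (fun h => hG h.1), if_neg (fun h => hG h.1)]
  · rw [if_neg (fun h => hW ((unW_iff W₀).2 h.2)), if_neg (fun h => hW h.2.1)]

lemma factor_bounds (W₀ : Subgroup ℚˣ) (k : ℕ) (D : ℚˣ) (r q : ℕ) {l : ℕ} (hl : l.Prime) :
    0 ≤ factor W₀ k D r q l ∧ factor W₀ k D r q l ≤ 1 := by
  classical
  unfold factor
  split_ifs with h1 h2
  · set Q := l ^ (k.factorization l + 1) with hQ
    have hQ0 : 0 < Q := pow_pos hl.pos _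
    have hg : (Nat.gcd r Q : ℝ) ≤ Q := by exact_mod_cast Nat.gcd_le_right r hQ0
    have hQr : (0 : ℝ) < (Q : ℕ) := by exact_mod_cast hQ0
    have h3 : (Nat.gcd r Q : ℝ) / (Q : ℕ) ≤ 1 := by rw [div_le_one hQr]; exact hg
    have h4 : 0 ≤ (Nat.gcd r Q : ℝ) / (Q : ℕ) := by positivity
    constructor <;> linarith
  · constructor <;> norm_num
  · exact ⟨zero_le_one, le_rfl⟩

lemma loc_bounds (F : IntermediateField ℚ (AlgebraicClosure ℚ)) [NumberField F]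
    (C : Set (F ≃ₐ[ℚ] F)) (W₀ : Subgroup ℚˣ) (k : ℕ) (D : ℚˣ) (r q : ℕ) :
    0 ≤ loc F C W₀ k D r q ∧ loc F C W₀ k D r q ≤ 1 := by
  classical
  unfold loc
  split_ifs
  · have h := fun l (hl : l ∈ (q - 1).primeFactors) =>
      factor_bounds W₀ k D r q (Nat.prime_of_mem_primeFactors hl)
    exact ⟨prod_nonneg fun l hl => (h l hl).1, prod_le_one (fun l hl => (h l hl).1)
      fun l hl => (h l hl).2⟩
  · exact ⟨le_rfl, zero_le_one⟩

lemma error_sub (F : IntermediateField ℚ (AlgebraicClosure ℚ)) [NumberField F]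
    (C : Set (F ≃ₐ[ℚ] F)) (W₀ : Subgroup ℚˣ) (k : ℕ) (D : ℚˣ) (r n : ℕ) :
    Pool.Agent.Q241.LN.Sub (error F C W₀ k D r n) := by
  classical
  have hcard : ∀ S : Finset ℕ, error F C W₀ k D r n S ≤ #S := by
    intro S
    unfold error
    set P : ℕ → Prop := fun q => InS F C
        (W₀ ⊔ Subgroup.closure {w : ℚˣ | (w : ℚ) = (D : ℚ) * (n : ℚ) ^ r}) k q with hP
    have h1 : (#(S.filter P) : ℝ) ≤ #S := by exact_mod_cast card_filter_le _ _
    have h2 : ∑ q ∈ S, loc F C W₀ k D r q ≤ #S := by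
      calc ∑ q ∈ S, loc F C W₀ k D r q ≤ ∑ _q ∈ S, (1 : ℝ) :=
            sum_le_sum fun q _ => (loc_bounds F C W₀ k D r q).2
        _ = #S := by rw [sum_const, nsmul_eq_mul, mul_one]
    have h3 : 0 ≤ ∑ q ∈ S, loc F C W₀ k D r q := sum_nonneg fun q _ => (loc_bounds F C W₀ k D r q).1
    have h4 : (0 : ℝ) ≤ #(S.filter P) := Nat.cast_nonneg _
    rw [abs_le]
    constructor <;> linarith
  refine ⟨hcard, fun S T hTS => ?_⟩
  refine le_trans ?_ (add_le_add_right (hcard (S \ T)) _)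
  unfold error
  set P : ℕ → Prop := fun q => InS F C
        (W₀ ⊔ Subgroup.closure {w : ℚˣ | (w : ℚ) = (D : ℚ) * (n : ℚ) ^ r}) k q with hP
  have e1 : (#(S.filter P) : ℝ) = #(T.filter P) + #((S \ T).filter P) := by
    rw [← Nat.cast_add, ← card_union_of_disjoint]
    · rw [← filter_union, union_sdiff_of_subset hTS]
    · exact disjoint_filter_filter disjoint_sdiff
  have e2 : ∑ q ∈ S, loc F C W₀ k D r q = ∑ q ∈ T, loc F C W₀ k D r q +
      ∑ q ∈ S \ T, loc F C W₀ k D r q := by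
    rw [add_comm, sum_sdiff hTS]
  rw [e1, e2]
  refine le_trans (le_of_eq ?_) (abs_add_le _ _)
  congr 1
  ring

/-- **Families of data.** -/
theorem families (κ C₀ : ℕ) (hκ : 1 ≤ κ) (hC₀ : 1 ≤ C₀) (σ τ : ℝ) (hσ : 0 < σ) (hτ : τ < σ / κ) :
    ∃ c : ℝ, 0 < c ∧ ∃ X₀ : ℕ, ∀ X N : ℕ, X₀ ≤ X → X ^ 2 ≤ N ^ κ → N ≤ X ^ C₀ →
      ∀ (J : Type) [Fintype J], (Fintype.card J : ℝ) ≤ (X : ℝ) ^ τ →
      ∀ (S : J → Finset ℕ) (F : J → IntermediateField ℚ (AlgebraicClosure ℚ)) [∀ j, NumberField (F j)]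
        [∀ j, IsGalois ℚ (F j)] (C : ∀ j, Set (F j ≃ₐ[ℚ] F j)) (W₀ : J → Subgroup ℚˣ) (k r : J → ℕ)
        (D : J → ℚˣ),
        (∀ j, 0 < k j ∧ 0 < r j ∧ (∀ q ∈ S j, q.Prime ∧ q ≤ X ∧ padicValRat q (D j : ℚ) = 0) ∧
          (X : ℝ) ^ σ ≤ #(S j)) →
        (#(badData F C W₀ k r D S N ((X : ℝ) ^ (-c))) : ℝ) ≤ N * (X : ℝ) ^ (-c) := by
  classical
  have hk0 : (0 : ℝ) < κ := by exact_mod_cast hκ
  have hg : 0 < σ - κ * τ := by
    rw [lt_div_iff₀ hk0] at hτ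
    linarith
  obtain ⟨c, hc, X₀, h⟩ :=
    Pool.Agent.TH893.JO.len_sets σ ((σ - κ * τ) / 2) hσ (by linarith) κ C₀ hκ hC₀
  set c' := min c ((σ - κ * τ) / (2 * κ)) with hc'
  have hc'0 : 0 < c' := lt_min hc (by positivity)
  refine ⟨c', hc'0, max X₀ 1, ?_⟩
  intro X N hX hN1 hN2 J _ hJ S F _ _ C W₀ k r D hyp
  have hX1 : (1 : ℝ) ≤ X := by exact_mod_cast (le_max_right _ _).trans hX
  have hX0 : (0 : ℝ) < X := by linarith
  have hcc : (X : ℝ) ^ (-c) ≤ (X : ℝ) ^ (-c') :=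
    Real.rpow_le_rpow_of_exponent_le hX1 (by linarith [min_le_left c ((σ - κ * τ) / (2 * κ))])
  set B : J → Finset ℕ := fun j => (Icc 1 N).filter (fun n : ℕ =>
    #(S j) * (X : ℝ) ^ (-c) < error (F j) (C j) (W₀ j) (k j) (D j) (r j) n (S j)) with hB
  have hsub : badData F C W₀ k r D S N ((X : ℝ) ^ (-c')) ⊆ univ.biUnion B := by
    intro n hn
    obtain ⟨hn1, j, hlt⟩ := mem_badData.1 hn
    rw [mem_biUnion]
    refine ⟨j, mem_univ _, ?_⟩
    rw [hB, mem_filter]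
    refine ⟨hn1, lt_of_le_of_lt ?_ hlt⟩
    exact mul_le_mul_of_nonneg_left hcc (Nat.cast_nonneg _)
  have h1 : (#(badData F C W₀ k r D S N ((X : ℝ) ^ (-c'))) : ℝ) ≤ ∑ j, (#(B j) : ℝ) := by
    refine le_trans (Nat.cast_le.2 (card_le_card hsub)) ?_
    refine le_trans (Nat.cast_le.2 card_biUnion_le) ?_
    rw [Nat.cast_sum]
  have h2 : ∀ j, (#(B j) : ℝ) ≤ N * (X : ℝ) ^ (-(σ - (σ - κ * τ) / 2) / κ) := by
    intro j
    obtain ⟨g1, g2, g3, g4⟩ := hyp j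
    have h3 := h X ((le_max_left _ _).trans hX) N hN1 hN2 (S j) (fun q hq => ⟨(g3 q hq).1, (g3 q hq).2.1⟩)
      g4 (F j) (C j) (W₀ j) (k j) (D j) (r j) g1.ne' g2.ne' (fun q hq => (g3 q hq).2.2)
    have e : ∑ q ∈ S j, loc (F j) (C j) (W₀ j) (k j) (D j) (r j) q =
        ∑ q ∈ S j, Pool.Agent.TH890.AS.dens q
          (Pool.Agent.W171.LG.QR (F j) (C j) (W₀ j) (k j) (D j) (r j) q) :=
      sum_congr rfl fun q hq => loc_eq (F j) (C j) (W₀ j) (k j) (D j) (r j) (g3 q hq).1 (g3 q hq).2.2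
    rw [← e] at h3
    refine le_trans (le_of_eq ?_) h3
    rw [hB]
    unfold error
    congr!
  refine h1.trans ((sum_le_sum fun j _ => h2 j).trans ?_)
  rw [sum_const, nsmul_eq_mul, card_univ]
  have h3 : (Fintype.card J : ℝ) * (N * (X : ℝ) ^ (-(σ - (σ - κ * τ) / 2) / κ)) ≤
      (X : ℝ) ^ τ * (N * (X : ℝ) ^ (-(σ - (σ - κ * τ) / 2) / κ)) :=
    mul_le_mul_of_nonneg_right hJ (by positivity)
  refine h3.trans ?_
  have h4 : (X : ℝ) ^ τ * (N * (X : ℝ) ^ (-(σ - (σ - κ * τ) / 2) / κ)) =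
      N * (X : ℝ) ^ (-((σ - κ * τ) / (2 * κ))) := by
    have e : -((σ - κ * τ) / (2 * κ)) = τ + -(σ - (σ - κ * τ) / 2) / κ := by
      field_simp
      ring
    rw [e, Real.rpow_add hX0]
    ring
  rw [h4]
  refine mul_le_mul_of_nonneg_left ?_ (Nat.cast_nonneg _)
  exact Real.rpow_le_rpow_of_exponent_le hX1
    (by linarith [min_le_right c ((σ - κ * τ) / (2 * κ))])

/-- **Main theorem.** (1) Families of data. (2) All indices, progressions and intervals at once. -/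
theorem result (κ C₀ : ℕ) (hκ : 1 ≤ κ) (hC₀ : 1 ≤ C₀) :
    (∀ σ τ : ℝ, 0 < σ → τ < σ / κ →
      ∃ c : ℝ, 0 < c ∧ ∃ X₀ : ℕ, ∀ X N : ℕ, X₀ ≤ X → X ^ 2 ≤ N ^ κ → N ≤ X ^ C₀ →
        ∀ (J : Type) [Fintype J], (Fintype.card J : ℝ) ≤ (X : ℝ) ^ τ →
        ∀ (S : J → Finset ℕ) (F : J → IntermediateField ℚ (AlgebraicClosure ℚ))
          [∀ j, NumberField (F j)] [∀ j, IsGalois ℚ (F j)] (C : ∀ j, Set (F j ≃ₐ[ℚ] F j))
          (W₀ : J → Subgroup ℚˣ) (k r : J → ℕ) (D : J → ℚˣ),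
          (∀ j, 0 < k j ∧ 0 < r j ∧ (∀ q ∈ S j, q.Prime ∧ q ≤ X ∧ padicValRat q (D j : ℚ) = 0) ∧
            (X : ℝ) ^ σ ≤ #(S j)) →
          (#(badData F C W₀ k r D S N ((X : ℝ) ^ (-c))) : ℝ) ≤ N * (X : ℝ) ^ (-c)) ∧
    (∀ σ ρ : ℝ, 0 ≤ ρ → σ ≤ 1 → κ * (2 * (1 - σ) + ρ) < σ →
      ∃ c : ℝ, 0 < c ∧ ∃ X₀ : ℕ, ∀ X N : ℕ, X₀ ≤ X → X ^ 2 ≤ N ^ κ → N ≤ X ^ C₀ →
        ∀ (F : IntermediateField ℚ (AlgebraicClosure ℚ)) [NumberField F] [IsGalois ℚ F]
          (C : Set (F ≃ₐ[ℚ] F)) (W₀ : Subgroup ℚˣ) (D : ℚˣ) (r : ℕ), 0 < r →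
          (#(badProgression F C W₀ D r N X ((X : ℝ) ^ ρ) σ ((X : ℝ) ^ (-c))) : ℝ) ≤
            N * (X : ℝ) ^ (-c)) := by
  classical
  refine ⟨fun σ τ hσ hτ => families κ C₀ hκ hC₀ σ τ hσ hτ, ?_⟩
  intro σ ρ hρ hσ1 hσ
  have hk1 : (1 : ℝ) ≤ κ := by exact_mod_cast hκ
  have hk0 : (0 : ℝ) < κ := by linarith
  have hσ0 : 0 < σ := by
    refine lt_of_le_of_lt ?_ hσ
    have : 0 ≤ 2 * (1 - σ) + ρ := by linarith
    positivity
  set γ := σ - κ * (2 * (1 - σ) + ρ) with hγ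
  have hγ0 : 0 < γ := by rw [hγ]; linarith
  set c₁ := min (σ / 8) (γ / (2 * (3 * κ + 1))) with hc₁
  have hc₁0 : 0 < c₁ := lt_min (by positivity) (by positivity)
  have hc₁σ : c₁ ≤ σ / 8 := min_le_left _ _
  have hc₁γ : 2 * (3 * (κ : ℝ) + 1) * c₁ ≤ γ := by
    have h1 : c₁ ≤ γ / (2 * (3 * κ + 1)) := min_le_right _ _
    rw [le_div_iff₀ (by positivity)] at h1
    linarith
  set τ := ρ + (2 * (1 - σ) + 3 * c₁) with hτ
  have hτσ : τ < (σ - c₁) / κ := by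
    rw [lt_div_iff₀ hk0, hτ]
    have h1 : 0 < (3 * (κ : ℝ) + 1) * c₁ := by positivity
    nlinarith
  obtain ⟨c₂, hc₂, X₁, hfam⟩ := families κ C₀ hκ hC₀ (σ - c₁) τ (by linarith) hτσ
  obtain ⟨X₂, hgrid⟩ := Pool.Agent.Q241.LN.grid σ c₁ c₂ hσ1 hc₁0 hc₁σ hc₂
  set c := min c₂ (c₁ / 2) with hc
  have hc0 : 0 < c := lt_min hc₂ (by positivity)
  refine ⟨c, hc0, max X₁ (max X₂ 1), ?_⟩
  intro X N hX hN1 hN2 F _ _ C W₀ D r hr
  have a1 : X₁ ≤ X := (le_max_left _ _).trans hX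
  have a2 : X₂ ≤ X := (le_max_left _ _).trans ((le_max_right _ _).trans hX)
  have hXn : 1 ≤ X := (le_max_right _ _).trans ((le_max_right _ _).trans hX)
  have hX1 : (1 : ℝ) ≤ X := by exact_mod_cast hXn
  have hX0 : (0 : ℝ) < X := by linarith
  obtain ⟨𝓕, hcard, hmem, hctl⟩ := hgrid X a2 (fun q => q.Prime ∧ padicValRat q (D : ℚ) = 0)
  set K := ⌊(X : ℝ) ^ ρ⌋₊ with hK
  have hKle : (K : ℝ) ≤ (X : ℝ) ^ ρ := Nat.floor_le (by positivity)
  let J : Type := {k : ℕ // k ∈ Icc 1 K} × {S : Finset ℕ // S ∈ 𝓕}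
  have hJ : (Fintype.card J : ℝ) ≤ (X : ℝ) ^ τ := by
    have h1 : Fintype.card J = K * #𝓕 := by
      rw [Fintype.card_prod, Fintype.card_coe, Fintype.card_coe, Nat.card_Icc]
      simp
    rw [h1, hτ, Real.rpow_add hX0]
    push_cast
    exact mul_le_mul hKle hcard (Nat.cast_nonneg _) (by positivity)
  have hmain := hfam X N a1 hN1 hN2 J hJ (fun j => j.2.1) (fun _ => F) (fun _ => C) (fun _ => W₀)
    (fun j => j.1.1) (fun _ => r) (fun _ => D) (by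
      intro j
      have hk := (mem_Icc.1 j.1.2).1
      have hS := hmem j.2.1 j.2.2
      exact ⟨hk, hr, fun q hq => ⟨(hS.1 q hq).1.1, (hS.1 q hq).2, (hS.1 q hq).1.2⟩, hS.2⟩)
  have hKc : (X : ℝ) ^ (-c₂) ≤ (X : ℝ) ^ (-c) :=
    Real.rpow_le_rpow_of_exponent_le hX1 (by linarith [min_le_left c₂ (c₁ / 2)])
  refine le_trans (Nat.cast_le.2 (card_le_card ?_)) (hmain.trans
    (mul_le_mul_of_nonneg_left hKc (Nat.cast_nonneg _)))
  intro n hn
  unfold badProgression at hn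
  rw [mem_filter] at hn
  obtain ⟨hnN, k, d, a, u, v, hk1', hkK, hd, huv, hvX, hlt⟩ := hn
  rw [mem_badData]
  refine ⟨hnN, ?_⟩
  by_contra hcon
  push Not at hcon
  have hkK' : k ∈ Icc 1 K := mem_Icc.2 ⟨hk1', Nat.le_floor hkK⟩
  have h1 := hctl (error F C W₀ k D r n) (error_sub F C W₀ k D r n)
    (fun S hS => hcon (⟨⟨k, hkK'⟩, ⟨S, hS⟩⟩ : J)) d a u v hd huv hvX
  have e : primesIn D d a u v =
      Pool.Agent.Q241.LN.PS (fun q => q.Prime ∧ padicValRat q (D : ℚ) = 0) d a u v := by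
    unfold primesIn Pool.Agent.Q241.LN.PS
    congr!
  rw [e] at hlt
  exact absurd hlt (not_lt.2 h1)

end Pool.Agent.Results.MP_48b1c3_nt.SimultaneousData
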